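import Pool.Agent.X35.GV.Nagao

/-!
# The Dirichlet sums `∑_{p ≤ x} 𝔄_p (log p) p ^ (-iτ)` of the families `(g(T) - n) Y² = h(X, T)`, at all heights `|τ| ≤ x ^ A`, for all
`(g, h)` in sets `H x` of `x ^ A` pairs at once, for all integers `n` of an interval of length `N` with at most `N ^ (1 - κ)` exceptions
-/

set_option autoImplicit false

namespace Pool.Agent.Results.MP_3d3918_nt.AllHeightsAllTwists

open Finset Polynomial

/-- The polynomial `h(X, t)` over `𝔽_p`, for `h(X, T) ∈ ℤ[T][X]` and `t ∈ 𝔽_p`. -/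
noncomputable def fibre (p : ℕ) (h : ℤ[X][X]) (t : ZMod p) : (ZMod p)[X] := h.map (eval₂RingHom (Int.castRingHom (ZMod p)) t)

open Classical in
/-- The trace of Frobenius on `H¹` of the fibre `(g(t) - n) Y² = h(X, t)` at `t ∈ 𝔽_p`: `p` minus the number of its affine points (there is one
point at infinity), and `0` at the points with `g(t) = n`. -/
noncomputable def trace (p : ℕ) (g : ℤ[X]) (h : ℤ[X][X]) (n : ℤ) (t : ZMod p) : ℤ :=
  if (g.map (Int.castRingHom (ZMod p))).eval t = (n : ZMod p) then 0 else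
    p - Nat.card {P : ZMod p × ZMod p // ((g.map (Int.castRingHom (ZMod p))).eval t - (n : ZMod p)) * P.2 ^ 2 = (fibre p h t).eval P.1}

/-- The fibre average `𝔄_p`, the sum of the traces over the points `t = 0, ..., p - 1` of the base, divided by `p`. -/
noncomputable def average (p : ℕ) (g : ℤ[X]) (h : ℤ[X][X]) (n : ℤ) : ℝ := (∑ t ∈ range p, (trace p g h n (t : ZMod p) : ℝ)) / p

/-- The sum of `𝔄_p (log p) p ^ (- i τ)` over the odd primes `p ≤ x`. -/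
noncomputable def dirichletSum (g : ℤ[X]) (h : ℤ[X][X]) (n : ℤ) (x : ℕ) (τ : ℝ) : ℂ :=
  ∑ p ∈ (range (x + 1)).filter (fun p => p.Prime ∧ p ≠ 2), ((average p g h n * Real.log p : ℝ) : ℂ) * (p : ℂ) ^ (-(τ * Complex.I))

lemma average_eq (p : ℕ) (hp : p.Prime) (h2 : p ≠ 2) (g : ℤ[X]) (h : ℤ[X][X]) (n : ℤ) :
    average p g h n = Pool.Agent.X35.GV.G p g (Pool.Agent.X35.GV.tr1 h) n / p := by
  classical
  have hF := Fact.mk hp
  rw [Pool.Agent.X35.GV.G_eq]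
  unfold average Pool.Agent.X35.GV.tw
  congr 1
  rw [show ∑ t ∈ range p, (trace p g h n (t : ZMod p) : ℝ) = ∑ t : ZMod p, (trace p g h n t : ℝ) from
    sum_bij' (fun i _ => (i : ZMod p)) (fun x _ => x.val) (fun i _ => mem_univ _)
      (fun x _ => mem_range.2 (ZMod.val_lt x)) (fun i hi => ZMod.val_natCast_of_lt (mem_range.1 hi))
      (fun x _ => ZMod.natCast_zmod_val x) (fun i _ => rfl)]
  refine sum_congr rfl fun t _ => ?_
  exact Pool.Agent.X35.GV.trt_eq h2 g h (n : ZMod p) t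

/-- Let `δ > 0`, `A ≥ 0` and an integer `B` be given. There are `κ > 0`, `C > 0` and `N₀` such that for all integers `N ≥ N₀` and `M` and all sets
`H x` of at most `x ^ A` (for `x ≥ 2`) pairs `(g, h)` of a monic `g ∈ ℤ[T]` of degree between `1` and `B` and a polynomial `h ∈ ℤ[T][X]`, monic in
`X` of odd degree at most `B`, the following holds for all but at most `N ^ (1 - κ)` of the integers `n` with `M ≤ n < M + N`.

For ALL integers `x` with `(log N) ^ C ≤ x ≤ N ^ κ`, ALL `(g, h) ∈ H x` and ALL real `τ` with `|τ| ≤ x ^ A`, the sum of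
`𝔄_p (log p) p ^ (- i τ)` over the odd primes `p ≤ x` for the family `(g(T) - n) Y² = h(X, T)` is at most `x ^ (1 / 2 + δ)` in absolute value. -/
theorem result (δ A : ℝ) (B : ℕ) (hδ : 0 < δ) (hA : 0 ≤ A) :
    ∃ κ C : ℝ, 0 < κ ∧ 0 < C ∧ ∃ N₀ : ℕ, ∀ N : ℕ, N₀ ≤ N → ∀ (M : ℤ) (H : ℕ → Set (ℤ[X] × ℤ[X][X])),
      (∀ x, 2 ≤ x → (H x).Finite ∧ ((H x).ncard : ℝ) ≤ (x : ℝ) ^ A) →
      (∀ x, ∀ c ∈ H x, c.1.Monic ∧ 1 ≤ c.1.natDegree ∧ c.1.natDegree ≤ B ∧ c.2.Monic ∧ Odd c.2.natDegree ∧ c.2.natDegree ≤ B) →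
      ({n : ℤ | M ≤ n ∧ n < M + N ∧ ¬ ∀ x : ℕ, Real.log N ^ C ≤ x → (x : ℝ) ≤ (N : ℝ) ^ κ → ∀ c ∈ H x, ∀ τ : ℝ, |τ| ≤ (x : ℝ) ^ A →
        ‖dirichletSum c.1 c.2 n x τ‖ ≤ (x : ℝ) ^ (1 / 2 + δ)}.ncard : ℝ) ≤ (N : ℝ) ^ (1 - κ) := by
  classical
  obtain ⟨W, hW1, hW2, hW3⟩ := Pool.Agent.X35.GV.heights A hA
  obtain ⟨κ, hκ, hκ1, N₀, HH⟩ := Pool.Agent.X35.GV.law1F (δ / 4) (A + (A + 6)) 1 (by positivity) le_rfl
  -- the threshold for absorbing constants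
  obtain ⟨x₀, hx₀⟩ : ∃ x₀ : ℝ, ∀ x : ℝ, x₀ ≤ x → 4 * (B : ℝ) ^ 2 * (x : ℝ) ^ (δ / 4) * Real.log x ≤ (x : ℝ) ^ δ := by
    have h1 := (isLittleO_log_rpow_atTop (show (0 : ℝ) < δ / 4 by positivity)).bound (show (0 : ℝ) < 1 by norm_num)
    have h2 : Filter.Tendsto (fun x : ℝ => x ^ (δ / 2)) Filter.atTop Filter.atTop := tendsto_rpow_atTop (by positivity)
    have h3 := h2.eventually_ge_atTop (4 * (B : ℝ) ^ 2)
    obtain ⟨x₀, hx₀⟩ := Filter.eventually_atTop.1 (h1.and (h3.and (Filter.eventually_ge_atTop (1 : ℝ))))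
    refine ⟨x₀, fun x hx => ?_⟩
    obtain ⟨h4, h5, h6⟩ := hx₀ x hx
    have hx0 : 0 < x := by linarith
    rw [one_mul, Real.norm_eq_abs, Real.norm_eq_abs, abs_of_nonneg (Real.log_nonneg h6), abs_of_pos (Real.rpow_pos_of_pos hx0 _)] at h4
    have h7 : x ^ δ = x ^ (δ / 2) * (x ^ (δ / 4) * x ^ (δ / 4)) := by
      rw [← Real.rpow_add hx0, ← Real.rpow_add hx0]
      congr 1
      ring
    rw [h7]
    have h8 : 0 < x ^ (δ / 4) := Real.rpow_pos_of_pos hx0 _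
    have h9 : 0 ≤ Real.log x := Real.log_nonneg h6
    calc 4 * (B : ℝ) ^ 2 * x ^ (δ / 4) * Real.log x = (4 * (B : ℝ) ^ 2) * (x ^ (δ / 4) * Real.log x) := by ring
      _ ≤ x ^ (δ / 2) * (x ^ (δ / 4) * x ^ (δ / 4)) := by gcongr
  obtain ⟨N₁, hN₁⟩ : ∃ N₁ : ℕ, ∀ N : ℕ, N₁ ≤ N → max x₀ 3 ≤ Real.log N ^ (2 / (δ / 4)) := by
    have h1 : Filter.Tendsto (fun N : ℕ => Real.log (N : ℝ) ^ (2 / (δ / 4))) Filter.atTop Filter.atTop :=
      (tendsto_rpow_atTop (by positivity)).comp (Real.tendsto_log_atTop.comp tendsto_natCast_atTop_atTop)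
    exact Filter.eventually_atTop.1 (h1.eventually_ge_atTop _)
  refine ⟨κ, 2 / (δ / 4), hκ, by positivity, max N₀ N₁, fun N hN M H hH1 hH2 => ?_⟩
  have hNx : ∀ x : ℕ, Real.log N ^ (2 / (δ / 4)) ≤ x → x₀ ≤ x ∧ (3 : ℝ) ≤ x := by
    intro x hx
    have := hN₁ N (le_trans (le_max_right _ _) hN)
    exact ⟨((le_max_left _ _).trans this).trans hx, ((le_max_right _ _).trans this).trans hx⟩
  obtain ⟨Hf, hHf⟩ : ∃ Hf : ℕ → Finset (ℤ[X] × ℤ[X][X]), Hf = fun x => if h : 2 ≤ x then (hH1 x h).1.toFinset else ∅ := ⟨_, rfl⟩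
  have hHm : ∀ x c, c ∈ Hf x → 2 ≤ x ∧ c ∈ H x := by
    intro x c hc
    rw [hHf] at hc
    by_cases h : 2 ≤ x
    · simp only [h, dif_pos, Set.Finite.mem_toFinset] at hc
      exact ⟨h, hc⟩
    · simp only [h] at hc
      exact absurd hc (by simp)
  obtain ⟨F, hF⟩ : ∃ F : ℕ → ((ℤ[X] × ℤ[X][X]) × (ℕ → ℝ)) → ℕ → ℤ → ℝ,
    F = fun (x : ℕ) (c : (ℤ[X] × ℤ[X][X]) × (ℕ → ℝ)) (p : ℕ) (n : ℤ) =>
      (c.2 p * (√(p : ℝ) * Real.log p / (√(x : ℝ) * Real.log x))) *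
        (Pool.Agent.X35.GV.G p c.1.1 (Pool.Agent.X35.GV.tr1 c.1.2) n / (p * (c.1.2.natDegree * √(p : ℝ)))) := ⟨_, rfl⟩
  have hr : ∀ x : ℕ, ∀ w : ℕ → ℝ, (∀ p, |w p| ≤ 1) → ∀ p ∈ Pool.Agent.X35.GV.op x,
      |w p * (√(p : ℝ) * Real.log p / (√(x : ℝ) * Real.log x))| ≤ 1 ∧
        (w p * (√(p : ℝ) * Real.log p / (√(x : ℝ) * Real.log x))) ^ 2 ≤ p / x := by
    intro x w hw p hp
    obtain ⟨q1, q2, q3, q4, q5⟩ := Pool.Agent.X35.GV.op_log hp
    have hp0 : (0 : ℝ) < p := by linarith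
    have hx0 : (0 : ℝ) < x := by linarith
    have e1 : √(p : ℝ) ≤ √(x : ℝ) := Real.sqrt_le_sqrt q2
    have e2 : 0 < √(x : ℝ) := Real.sqrt_pos.2 hx0
    have e3 : 0 ≤ √(p : ℝ) := Real.sqrt_nonneg _
    have e4 : √(p : ℝ) * Real.log p / (√(x : ℝ) * Real.log x) ≤ 1 := by
      rw [div_le_one (by positivity)]
      exact mul_le_mul e1 q4 q3.le e2.le
    have e5 : 0 ≤ √(p : ℝ) * Real.log p / (√(x : ℝ) * Real.log x) := by positivity
    constructor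
    · rw [abs_mul, abs_of_nonneg e5]
      exact mul_le_one₀ (hw p) e5 e4
    · have e6 : (w p * (√(p : ℝ) * Real.log p / (√(x : ℝ) * Real.log x))) ^ 2 =
          (w p ^ 2 * (Real.log p / Real.log x) ^ 2) * (√(p : ℝ) ^ 2 / √(x : ℝ) ^ 2) := by
        field_simp
      rw [e6, Real.sq_sqrt hp0.le, Real.sq_sqrt hx0.le]
      have e7 : w p ^ 2 ≤ 1 := by
        rw [← sq_abs]
        exact pow_le_one₀ (abs_nonneg _) (hw p)
      have e8 : (Real.log p / Real.log x) ^ 2 ≤ 1 := by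
        apply pow_le_one₀ (by positivity)
        rw [div_le_one q5]
        exact q4
      exact mul_le_of_le_one_left (by positivity) (mul_le_one₀ e7 (sq_nonneg _) e8)
  obtain ⟨Ex, hEx⟩ : ∃ Ex : Finset ℤ, Ex = (Ico M (M + N)).filter (fun n => ¬ ∀ x : ℕ, Real.log N ^ (2 / (δ / 4)) ≤ x → (x : ℝ) ≤ (N : ℝ) ^ κ →
      ∀ c ∈ H x, ∀ τ : ℝ, |τ| ≤ (x : ℝ) ^ A → ‖dirichletSum c.1 c.2 n x τ‖ ≤ (x : ℝ) ^ (1 / 2 + δ)) := ⟨_, rfl⟩
  have hset : {n : ℤ | M ≤ n ∧ n < M + N ∧ ¬ ∀ x : ℕ, Real.log N ^ (2 / (δ / 4)) ≤ x → (x : ℝ) ≤ (N : ℝ) ^ κ → ∀ c ∈ H x, ∀ τ : ℝ,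
      |τ| ≤ (x : ℝ) ^ A → ‖dirichletSum c.1 c.2 n x τ‖ ≤ (x : ℝ) ^ (1 / 2 + δ)} = (Ex : Set ℤ) := by
    ext n
    rw [hEx, mem_coe, mem_filter, mem_Ico, and_assoc]
    rfl
  rw [hset, Set.ncard_coe_finset]
  refine HH N (le_trans (le_max_left _ _) hN) ((ℤ[X] × ℤ[X][X]) × (ℕ → ℝ)) (fun x => Hf x ×ˢ W x) ?_ ℕ
    (fun x _ => Pool.Agent.X35.GV.op x) (fun _ p => p) ?_ ?_ F (fun x c => max 1 (c.1.1.natDegree : ℝ)) ?_ ?_ ?_ ?_ M Ex ?_ ?_
  · intro x hx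
    have hx0 : (0 : ℝ) < x := by
      have : (2 : ℝ) ≤ x := by exact_mod_cast hx
      linarith
    rw [card_product, Nat.cast_mul, Real.rpow_add hx0]
    apply mul_le_mul _ (hW1 x hx) (Nat.cast_nonneg _) (Real.rpow_nonneg hx0.le _)
    have h1 := (hH1 x hx).2
    rw [Set.ncard_eq_toFinset_card _ (hH1 x hx).1] at h1
    rw [hHf]
    simp only [hx, dif_pos]
    exact h1
  · intro x c _ p hp
    rw [Pool.Agent.X35.GV.mem_op] at hp
    exact ⟨hp.2.1.two_le, by rw [pow_one]; exact hp.1⟩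
  · intro x c _ p hp p' hp' hne
    rw [Pool.Agent.X35.GV.mem_op] at hp hp'
    exact (Nat.coprime_primes hp.2.1 hp'.2.1).2 hne
  · intro x c _ p hp m m' h
    rw [Pool.Agent.X35.GV.mem_op] at hp
    rw [hF]
    show _ * (Pool.Agent.X35.GV.G p c.1.1 _ m / _) = _ * (Pool.Agent.X35.GV.G p c.1.1 _ m' / _)
    rw [Pool.Agent.X35.GV.G_per p hp.2.1 c.1.1 _ m m' h]
  · intro x c hc p hp m
    rw [mem_product] at hc
    obtain ⟨hx2, hcH⟩ := hHm x c.1 hc.1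
    obtain ⟨g1, g2, g3, g4, g5, g6⟩ := hH2 x c.1 hcH
    have hp' := hp
    rw [Pool.Agent.X35.GV.mem_op] at hp
    have hp0 : (0 : ℝ) < p := by exact_mod_cast hp.2.1.pos
    have hD : (0 : ℝ) < c.1.2.natDegree := by exact_mod_cast g5.pos
    rw [hF]
    exact Pool.Agent.X35.GV.G_abs p hp.2.1 c.1.1 (Pool.Agent.X35.GV.tr1 c.1.2) (c.1.2.natDegree * √(p : ℝ))
      (mul_pos hD (Real.sqrt_pos.2 hp0)) (fun t => Pool.Agent.X35.GV.tr1_bound c.1.2 g4 g5 p hp.2.1 hp.2.2 t) _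
      (hr x c.2 (hW2 x c.2 hc.2) p hp').1 m
  · intro x c hc p hp
    rw [Pool.Agent.X35.GV.mem_op] at hp
    rw [hF]
    exact Pool.Agent.X35.GV.G_mean p hp.2.1 hp.2.2 c.1.1 (Pool.Agent.X35.GV.tr1 c.1.2) (c.1.2.natDegree * √(p : ℝ)) _
  · intro x c hc
    refine ⟨le_max_left _ _, ?_⟩
    rw [mem_product] at hc
    obtain ⟨hx2, hcH⟩ := hHm x c.1 hc.1
    obtain ⟨g1, g2, g3, g4, g5, g6⟩ := hH2 x c.1 hcH
    have hx0 : (0 : ℝ) < x := by
      have : (2 : ℝ) ≤ x := by exact_mod_cast hx2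
      linarith
    have hone : ∀ p ∈ Pool.Agent.X35.GV.op x, Pool.Agent.X35.GV.avg p (fun m => F x c p m ^ 2) ≤ (c.1.1.natDegree : ℝ) / x := by
      intro p hp
      have hp' := hp
      rw [Pool.Agent.X35.GV.mem_op] at hp
      have hp0 : (0 : ℝ) < p := by exact_mod_cast hp.2.1.pos
      have hD : (0 : ℝ) < c.1.2.natDegree := by exact_mod_cast g5.pos
      have h1 := Pool.Agent.X35.GV.G_sq p hp.2.1 hp.2.2 c.1.1 g1 g2 (Pool.Agent.X35.GV.tr1 c.1.2) (c.1.2.natDegree * √(p : ℝ))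
        (mul_pos hD (Real.sqrt_pos.2 hp0)) (fun t => Pool.Agent.X35.GV.tr1_bound c.1.2 g4 g5 p hp.2.1 hp.2.2 t)
        (c.2 p * (√(p : ℝ) * Real.log p / (√(x : ℝ) * Real.log x)))
      rw [hF]
      refine h1.trans ?_
      have h2 := (hr x c.2 (hW2 x c.2 hc.2) p hp').2
      rw [div_le_iff₀ hp0]
      calc _ ≤ (p / x : ℝ) * c.1.1.natDegree := mul_le_mul_of_nonneg_right h2 (Nat.cast_nonneg _)
        _ = _ := by ring
    calc _ ≤ ∑ _p ∈ Pool.Agent.X35.GV.op x, (c.1.1.natDegree : ℝ) / x := sum_le_sum hone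
      _ = ((Pool.Agent.X35.GV.op x).card : ℝ) * ((c.1.1.natDegree : ℝ) / x) := by rw [sum_const, nsmul_eq_mul]
      _ ≤ (x : ℝ) * ((c.1.1.natDegree : ℝ) / x) := mul_le_mul_of_nonneg_right (Pool.Agent.X35.GV.op_card x) (by positivity)
      _ = c.1.1.natDegree := by field_simp
      _ ≤ max 1 (c.1.1.natDegree : ℝ) := le_max_right _ _
  · intro n hn
    rw [hEx, mem_filter, mem_Ico] at hn
    exact hn.1
  · intro n hn
    rw [hEx, mem_filter] at hn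
    obtain ⟨-, hn⟩ := hn
    push Not at hn
    obtain ⟨x, hx1, hx2, c, hc, τ, hτ, hbig⟩ := hn
    refine ⟨x, hx1, hx2, ?_⟩
    by_contra hcon
    push Not at hcon
    obtain ⟨hxx, hx3⟩ := hNx x hx1
    have hx0 : (0 : ℝ) < x := by linarith
    have hxn : 2 ≤ x := by
      have : (2 : ℝ) ≤ x := by linarith
      exact_mod_cast this
    obtain ⟨g1, g2, g3, g4, g5, g6⟩ := hH2 x c hc
    have hD : (0 : ℝ) < c.2.natDegree := by exact_mod_cast g5.pos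
    have hD1 : (1 : ℝ) ≤ c.2.natDegree := by exact_mod_cast g5.pos
    have hDB : (c.2.natDegree : ℝ) ≤ B := by exact_mod_cast g6
    have hgB : (c.1.natDegree : ℝ) ≤ B := by exact_mod_cast g3
    have hl : 0 < Real.log x := Real.log_pos (by linarith)
    have hs : 0 < √(x : ℝ) := Real.sqrt_pos.2 hx0
    have hcf : c ∈ Hf x := by
      rw [hHf]
      simp only [hxn, dif_pos, Set.Finite.mem_toFinset]
      exact hc
    have hmax : max 1 (c.1.natDegree : ℝ) = c.1.natDegree := max_eq_right (by exact_mod_cast g2)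
    have hS : ∀ w ∈ W x, |∑ p ∈ Pool.Agent.X35.GV.op x, w p * (average p c.1 c.2 n * Real.log p)| ≤
        (c.2.natDegree * (√(x : ℝ) * Real.log x)) * (√(c.1.natDegree : ℝ) * (x : ℝ) ^ (δ / 4)) := by
      intro w hw
      have h1 := hcon (c, w) (mem_product.2 ⟨hcf, hw⟩)
      rw [hF] at h1
      have h2 : ∑ p ∈ Pool.Agent.X35.GV.op x, w p * (average p c.1 c.2 n * Real.log p) =
          (c.2.natDegree * (√(x : ℝ) * Real.log x)) * ∑ p ∈ Pool.Agent.X35.GV.op x,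
            (w p * (√(p : ℝ) * Real.log p / (√(x : ℝ) * Real.log x))) *
            (Pool.Agent.X35.GV.G p c.1 (Pool.Agent.X35.GV.tr1 c.2) n / (p * (c.2.natDegree * √(p : ℝ)))) := by
        rw [mul_sum]
        refine sum_congr rfl fun p hp => ?_
        rw [Pool.Agent.X35.GV.mem_op] at hp
        have hp0 : (0 : ℝ) < p := by exact_mod_cast hp.2.1.pos
        have hsp : 0 < √(p : ℝ) := Real.sqrt_pos.2 hp0
        rw [average_eq p hp.2.1 hp.2.2]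
        field_simp
      rw [h2, abs_mul, abs_of_pos (by positivity : (0 : ℝ) < c.2.natDegree * (√(x : ℝ) * Real.log x))]
      apply mul_le_mul_of_nonneg_left _ (by positivity)
      have h3 : |∑ p ∈ Pool.Agent.X35.GV.op x, (w p * (√(p : ℝ) * Real.log p / (√(x : ℝ) * Real.log x))) *
            (Pool.Agent.X35.GV.G p c.1 (Pool.Agent.X35.GV.tr1 c.2) n / (p * (c.2.natDegree * √(p : ℝ))))| ≤
          √(max 1 (c.1.natDegree : ℝ)) * (x : ℝ) ^ (δ / 4) := h1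
      rw [hmax] at h3
      exact h3
    have hK : ∀ p ∈ Pool.Agent.X35.GV.op x, |average p c.1 c.2 n * Real.log p| ≤ c.2.natDegree * (√(x : ℝ) * Real.log x) := by
      intro p hp
      have hp' := hp
      obtain ⟨q1, q2, q3, q4, q5⟩ := Pool.Agent.X35.GV.op_log hp
      rw [Pool.Agent.X35.GV.mem_op] at hp
      have hp0 : (0 : ℝ) < p := by exact_mod_cast hp.2.1.pos
      have hsp : 0 < √(p : ℝ) := Real.sqrt_pos.2 hp0
      have h1 := Pool.Agent.X35.GV.G_abs p hp.2.1 c.1 (Pool.Agent.X35.GV.tr1 c.2) (c.2.natDegree * √(p : ℝ))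
        (mul_pos hD hsp) (fun t => Pool.Agent.X35.GV.tr1_bound c.2 g4 g5 p hp.2.1 hp.2.2 t) 1 (by norm_num) n
      rw [one_mul, abs_div, abs_of_pos (by positivity : (0 : ℝ) < p * (c.2.natDegree * √(p : ℝ))), div_le_one (by positivity)] at h1
      rw [average_eq p hp.2.1 hp.2.2, abs_mul, abs_div, abs_of_pos hp0, abs_of_pos q3]
      have h2 : |Pool.Agent.X35.GV.G p c.1 (Pool.Agent.X35.GV.tr1 c.2) n| / p ≤ c.2.natDegree * √(p : ℝ) := by
        rw [div_le_iff₀ hp0]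
        linarith
      have e1 : √(p : ℝ) ≤ √(x : ℝ) := Real.sqrt_le_sqrt q2
      calc _ ≤ (c.2.natDegree * √(p : ℝ)) * Real.log p := mul_le_mul_of_nonneg_right h2 q3.le
        _ ≤ (c.2.natDegree * √(x : ℝ)) * Real.log x := mul_le_mul (mul_le_mul_of_nonneg_left e1 hD.le) q4 q3.le (by positivity)
        _ = _ := by ring
    have hfin := hW3 x hxn (fun p => average p c.1 c.2 n * Real.log p) _ _ (by positivity) hK hS τ hτ
    have hd : dirichletSum c.1 c.2 n x τ = ∑ p ∈ Pool.Agent.X35.GV.op x,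
      ((average p c.1 c.2 n * Real.log p : ℝ) : ℂ) * (p : ℂ) ^ (-(τ * Complex.I)) := rfl
    rw [hd] at hbig
    refine absurd (hbig.trans_le hfin) (not_lt.2 ?_)
    have hgs : √(c.1.natDegree : ℝ) ≤ B := by
      rw [Real.sqrt_le_left (by positivity)]
      have h1 : (1 : ℝ) ≤ c.1.natDegree := by exact_mod_cast g2
      nlinarith
    have hxd : 1 ≤ (x : ℝ) ^ (δ / 4) := Real.one_le_rpow (by linarith) (by positivity)
    have hB1 : (1 : ℝ) ≤ B := hD1.trans hDB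
    rw [Real.rpow_add hx0, ← Real.sqrt_eq_rpow]
    calc 2 * (c.2.natDegree * (√(x : ℝ) * Real.log x) * (√(c.1.natDegree : ℝ) * (x : ℝ) ^ (δ / 4))) +
          2 * (c.2.natDegree * (√(x : ℝ) * Real.log x)) ≤
        2 * (B * (√(x : ℝ) * Real.log x) * (B * (x : ℝ) ^ (δ / 4))) + 2 * (B * (√(x : ℝ) * Real.log x) * (B * (x : ℝ) ^ (δ / 4))) := by
          have h1 : (c.2.natDegree : ℝ) * (√(x : ℝ) * Real.log x) * (√(c.1.natDegree : ℝ) * (x : ℝ) ^ (δ / 4)) ≤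
            B * (√(x : ℝ) * Real.log x) * (B * (x : ℝ) ^ (δ / 4)) := by gcongr
          have h2 : (c.2.natDegree : ℝ) * (√(x : ℝ) * Real.log x) ≤ B * (√(x : ℝ) * Real.log x) * (B * (x : ℝ) ^ (δ / 4)) := by
            have h3 : (1 : ℝ) ≤ B * (x : ℝ) ^ (δ / 4) := one_le_mul_of_one_le_of_one_le hB1 hxd
            calc (c.2.natDegree : ℝ) * (√(x : ℝ) * Real.log x) ≤ B * (√(x : ℝ) * Real.log x) := by gcongr
              _ ≤ _ := le_mul_of_one_le_right (by positivity) h3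
          linarith
      _ = √(x : ℝ) * (4 * (B : ℝ) ^ 2 * (x : ℝ) ^ (δ / 4) * Real.log x) := by ring
      _ ≤ √(x : ℝ) * (x : ℝ) ^ δ := mul_le_mul_of_nonneg_left (hx₀ x hxx) hs.le

end Pool.Agent.Results.MP_3d3918_nt.AllHeightsAllTwists
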