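import Pool.Agent.X35.GV.Pencil

/-!
# The Dirichlet sums of the Frobenius averages at all heights, for ALL pencils of twists `(g(T) - n q(T)) Y² = h(X, T)` of ALL families of
hyperelliptic curves over affine spaces of ALL dimensions, for ALL integers `n` near `± α v_i`, outside a set of `α` of small dimension
-/

set_option autoImplicit false

namespace Pool.Agent.Results.MP_3d3918_nt.AllPencilsAllBases

open Finset Polynomial

/-- The value at `t ∈ 𝔽_p ^ k` of an integral polynomial in `k` variables. -/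
noncomputable def value (p : ℕ) {k : ℕ} (g : MvPolynomial (Fin k) ℤ) (t : Fin k → ZMod p) : ZMod p :=
  MvPolynomial.eval₂ (Int.castRingHom (ZMod p)) t g

/-- The polynomial `h(X, t)` over `𝔽_p`, for `h(X, T) ∈ ℤ[T_1, ..., T_k][X]` and `t ∈ 𝔽_p ^ k`. -/
noncomputable def fibre (p : ℕ) {k : ℕ} (h : (MvPolynomial (Fin k) ℤ)[X]) (t : Fin k → ZMod p) : (ZMod p)[X] :=
  h.map (MvPolynomial.eval₂Hom (Int.castRingHom (ZMod p)) t)

open Classical in
/-- The trace of Frobenius on `H¹` of the fibre `(g(t) - n q(t)) Y² = h(X, t)` at `t ∈ 𝔽_p ^ k`: `p` minus the number of its affine points (there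
is one point at infinity), and `0` at the points with `g(t) = n q(t)`. -/
noncomputable def trace (p : ℕ) {k : ℕ} (g q : MvPolynomial (Fin k) ℤ) (h : (MvPolynomial (Fin k) ℤ)[X]) (n : ℤ) (t : Fin k → ZMod p) : ℤ :=
  if value p g t - (n : ZMod p) * value p q t = 0 then 0 else
    p - Nat.card {P : ZMod p × ZMod p // (value p g t - (n : ZMod p) * value p q t) * P.2 ^ 2 = (fibre p h t).eval P.1}

/-- The fibre average `𝔄_p`, the sum of the traces over the points of the base `𝔸 ^ k` modulo `p`, divided by `p ^ k` (`p` prime). -/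
noncomputable def average (p : ℕ) {k : ℕ} (g q : MvPolynomial (Fin k) ℤ) (h : (MvPolynomial (Fin k) ℤ)[X]) (n : ℤ) : ℝ :=
  (∑ᶠ t : Fin k → ZMod p, (trace p g q h n t : ℝ)) / (p : ℝ) ^ k

/-- The sum of `𝔄_p (log p) p ^ (- i τ)` over the odd primes `p ≤ x`. -/
noncomputable def dirichletSum {k : ℕ} (g q : MvPolynomial (Fin k) ℤ) (h : (MvPolynomial (Fin k) ℤ)[X]) (n : ℤ) (x : ℕ) (τ : ℝ) : ℂ :=
  ∑ p ∈ (range (x + 1)).filter (fun p => p.Prime ∧ p ≠ 2), ((average p g q h n * Real.log p : ℝ) : ℂ) * (p : ℂ) ^ (-(τ * Complex.I))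

/-- the trace of the untwisted fibre -/
noncomputable def tr {k : ℕ} (h : (MvPolynomial (Fin k) ℤ)[X]) (p : ℕ) (t : Fin k → ZMod p) : ℝ :=
  (((p : ℤ) - Nat.card {P : ZMod p × ZMod p // 1 * P.2 ^ 2 = (fibre p h t).eval P.1} : ℤ) : ℝ)

lemma tr_bound {k : ℕ} (h : (MvPolynomial (Fin k) ℤ)[X]) (hm : h.Monic) (ho : Odd h.natDegree) (p : ℕ) (hp : p.Prime) (h2 : p ≠ 2)
    (t : Fin k → ZMod p) : |tr h p t| ≤ h.natDegree * (p : ℝ) ^ (1 / 2 : ℝ) := by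
  have hf : Fact p.Prime := ⟨hp⟩
  have h3 : ringChar (ZMod p) ≠ 2 := by
    rw [ZMod.ringChar_zmod_n]
    exact h2
  obtain ⟨g, hg⟩ : ∃ g : Polynomial (ZMod p), g = fibre p h t := ⟨_, rfl⟩
  have hgd : g.natDegree = h.natDegree := by
    rw [hg]
    exact hm.natDegree_map _
  have h4 := Pool.Agent.H126T.card_aff h3 g (1 : ZMod p) one_ne_zero
  rw [ZMod.card, map_one, one_mul] at h4
  have h5 := Pool.Agent.H341R2.Sharp.weil_sharp h3 g (by rw [hgd]; exact ho.pos) (by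
    intro c h' hgh
    by_cases hc : c = 0
    · rw [hc] at hgh
      simp at hgh
      rw [hgh, Polynomial.natDegree_zero] at hgd
      have := ho.pos
      omega
    · have h5 : g.natDegree = 2 * h'.natDegree := by
        rw [hgh, Polynomial.natDegree_C_mul hc, Polynomial.natDegree_pow]
      rw [hgd] at h5
      rw [h5] at ho
      exact (Nat.not_odd_iff_even.2 (even_two_mul _)) ho)
  rw [hgd, ZMod.card] at h5
  unfold tr
  rw [← hg, h4, ← Real.sqrt_eq_rpow]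
  push_cast
  rw [sub_add_cancel_left, abs_neg]
  refine h5.trans ?_
  have h6 : 0 ≤ Real.sqrt (p : ℝ) := Real.sqrt_nonneg _
  nlinarith

lemma trace_eq {k : ℕ} (p : ℕ) [hF : Fact p.Prime] (h2 : p ≠ 2) (g q : MvPolynomial (Fin k) ℤ) (h : (MvPolynomial (Fin k) ℤ)[X]) (n : ℤ)
    (t : Fin k → ZMod p) : (trace p g q h n t : ℝ) =
    (Pool.Agent.H304R2.EC.Pts.qc p (Pool.Agent.X35.GV.ev p g t - (n : ZMod p) * Pool.Agent.X35.GV.ev p q t) : ℝ) * tr h p t := by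
  classical
  have h3 : ringChar (ZMod p) ≠ 2 := by
    rw [ZMod.ringChar_zmod_n]
    exact h2
  have e1 : ∀ g : MvPolynomial (Fin k) ℤ, value p g t = Pool.Agent.X35.GV.ev p g t := fun g => rfl
  unfold trace tr
  rw [e1, e1]
  by_cases h0 : Pool.Agent.X35.GV.ev p g t - (n : ZMod p) * Pool.Agent.X35.GV.ev p q t = 0
  · have h6 : Pool.Agent.H304R2.EC.Pts.qc p (0 : ZMod p) = 0 := quadraticChar_zero
    rw [if_pos h0, h0, h6]
    simp
  · rw [if_neg h0]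
    obtain ⟨f, hf⟩ : ∃ f : Polynomial (ZMod p), f = fibre p h t := ⟨_, rfl⟩
    rw [← hf, Pool.Agent.H126T.card_aff h3 f _ h0, Pool.Agent.H126T.card_aff h3 f _ one_ne_zero, ZMod.card, map_one]
    push_cast
    ring

lemma average_eq {k : ℕ} (p : ℕ) (hp : p.Prime) (h2 : p ≠ 2) (g q : MvPolynomial (Fin k) ℤ) (h : (MvPolynomial (Fin k) ℤ)[X]) (n : ℤ) :
    average p g q h n = Pool.Agent.X35.GV.tot p g q (tr h) n := by
  classical
  have hF := Fact.mk hp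
  rw [Pool.Agent.X35.GV.tot_eq p hp]
  unfold average
  rw [finsum_eq_sum_of_fintype]
  congr 1
  exact sum_congr rfl fun t _ => trace_eq p h2 g q h n t

/-- Let `δ > 0` and `A ≥ 0`. There are `κ > 0` and `C > 0` such that for all reals `v_i ≥ 1` with `∑ v_i ^ (-u) < ∞` for all `u > τ` (`τ ≥ 0`;
for example `v_i = 2 ^ i`, `τ = 0`) and all `θ < 1` there is a set `E` of reals of Hausdorff dimension at most `(1 - κ + τ) / (1 - θ)` with the
following property. Let `α > 0` be a real number outside `E`. For ALL `k`, ALL pencils spanned by linearly independent `g, q ∈ ℤ[T_1, ..., T_k]`, ALL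
`h ∈ ℤ[T_1, ..., T_k][X]`, monic of odd degree in `X`, all `i ≥ i₀(α, k, g, q, h)`, ALL integers `n` with `||n| - α v_i| ≤ v_i ^ θ`, ALL integers `x`
with `(log |n|) ^ C ≤ x ≤ |n| ^ κ` and ALL real `σ` with `|σ| ≤ x ^ A`, the sum of `𝔄_p (log p) p ^ (- i σ)` over the odd primes `p ≤ x` for the
family `(g(T) - n q(T)) Y² = h(X, T)` over `𝔸 ^ k` is at most `x ^ (1 / 2 + δ)` in absolute value. -/
theorem result (δ A : ℝ) (hδ : 0 < δ) (hA : 0 ≤ A) :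
    ∃ κ C : ℝ, 0 < κ ∧ 0 < C ∧ ∀ (v : ℕ → ℝ) (τ θ : ℝ), (∀ i, 1 ≤ v i) → 0 ≤ τ → θ < 1 →
      (∀ u : ℝ, τ < u → Summable (fun i => v i ^ (-u))) →
      ∃ E : Set ℝ, dimH E ≤ ENNReal.ofReal ((1 - κ + τ) / (1 - θ)) ∧
        ∀ α : ℝ, 0 < α → α ∉ E → ∀ (k : ℕ) (g q : MvPolynomial (Fin k) ℤ) (h : (MvPolynomial (Fin k) ℤ)[X]),
          (∀ a b : ℤ, MvPolynomial.C a * g = MvPolynomial.C b * q → a = 0 ∧ b = 0) → h.Monic → Odd h.natDegree →
          ∃ i₀ : ℕ, ∀ i : ℕ, i₀ ≤ i → ∀ n : ℤ, |(|(n : ℝ)|) - α * v i| ≤ v i ^ θ →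
            ∀ x : ℕ, Real.log |(n : ℝ)| ^ C ≤ x → (x : ℝ) ≤ |(n : ℝ)| ^ κ → ∀ σ : ℝ, |σ| ≤ (x : ℝ) ^ A →
              ‖dirichletSum g q h n x σ‖ ≤ (x : ℝ) ^ (1 / 2 + δ) := by
  classical
  obtain ⟨W, hW1, hW2, hW3⟩ := Pool.Agent.X35.GV.heights A hA
  obtain ⟨κ, C, hκ, hC, H⟩ := Pool.Agent.X35.GV.pencil_law (δ / 2) (A + 6) (1 / 2) (by positivity) (by norm_num)
  refine ⟨κ, C, hκ, hC, fun v τ θ hv1 hτ hθ hv => ?_⟩
  -- the systems
  let Γ : Type := {c : Σ k : ℕ, (MvPolynomial (Fin k) ℤ × MvPolynomial (Fin k) ℤ × (MvPolynomial (Fin k) ℤ)[X]) //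
    (∀ a b : ℤ, MvPolynomial.C a * c.2.1 = MvPolynomial.C b * c.2.2.1 → a = 0 ∧ b = 0) ∧ c.2.2.2.Monic ∧ Odd c.2.2.2.natDegree}
  have hcount : Countable Γ := by
    have h1 : ∀ k : ℕ, Countable (MvPolynomial (Fin k) ℤ × MvPolynomial (Fin k) ℤ × (MvPolynomial (Fin k) ℤ)[X]) := by
      intro k
      have := Pool.Agent.X35.GV.countable_mv k
      have := Pool.Agent.X35.GV.countable_mv_poly k
      infer_instance
    have h3 : Countable (Σ k : ℕ, (MvPolynomial (Fin k) ℤ × MvPolynomial (Fin k) ℤ × (MvPolynomial (Fin k) ℤ)[X])) := inferInstance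
    exact Subtype.countable
  obtain ⟨E, hE1, hE2⟩ := H v τ θ hv1 hτ hθ hv Γ (fun c => ⟨c.1.1, c.1.2.1, c.1.2.2.1⟩) (fun c => c.2.1) W hW1 hW2
    (fun c p t => tr c.1.2.2.2 p t) (fun c => c.1.2.2.2.natDegree) (fun c => by exact_mod_cast c.2.2.2.pos)
    (fun c p hp h2 t => tr_bound c.1.2.2.2 c.2.2.1 c.2.2.2 p hp h2 t)
  refine ⟨E, hE1, fun α hα hαE k g q h hgq hm ho => ?_⟩
  obtain ⟨i₁, hi₁⟩ := hE2 α hα hαE ⟨⟨k, g, q, h⟩, hgq, hm, ho⟩
  -- absorbing constants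
  obtain ⟨x₀, hx₀⟩ : ∃ x₀ : ℝ, ∀ x : ℝ, x₀ ≤ x → 2 * (x : ℝ) ^ (1 / 2 + δ / 2) + 2 * (h.natDegree * (x : ℝ) ^ (1 / 2 : ℝ) * Real.log x) ≤
      (x : ℝ) ^ (1 / 2 + δ) := by
    have h1 := (isLittleO_log_rpow_atTop (show (0 : ℝ) < δ / 2 by positivity)).bound (show (0 : ℝ) < 1 by norm_num)
    have h2 : Filter.Tendsto (fun x : ℝ => x ^ (δ / 2)) Filter.atTop Filter.atTop := tendsto_rpow_atTop (by positivity)
    have h3 := h2.eventually_ge_atTop (2 + 2 * (h.natDegree : ℝ))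
    obtain ⟨x₀, hx₀⟩ := Filter.eventually_atTop.1 (h1.and (h3.and (Filter.eventually_ge_atTop (1 : ℝ))))
    refine ⟨x₀, fun x hx => ?_⟩
    obtain ⟨h4, h5, h6⟩ := hx₀ x hx
    have hx0 : 0 < x := by linarith
    rw [one_mul, Real.norm_eq_abs, Real.norm_eq_abs, abs_of_nonneg (Real.log_nonneg h6), abs_of_pos (Real.rpow_pos_of_pos hx0 _)] at h4
    have e1 : x ^ (1 / 2 + δ / 2) = x ^ (1 / 2 : ℝ) * x ^ (δ / 2) := Real.rpow_add hx0 _ _
    have e2 : x ^ (1 / 2 + δ) = x ^ (1 / 2 : ℝ) * (x ^ (δ / 2) * x ^ (δ / 2)) := by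
      rw [← Real.rpow_add hx0, ← Real.rpow_add hx0]
      congr 1
      ring
    rw [e1, e2]
    have h7 : 0 < x ^ (1 / 2 : ℝ) := Real.rpow_pos_of_pos hx0 _
    have h8 : 0 < x ^ (δ / 2) := Real.rpow_pos_of_pos hx0 _
    calc 2 * (x ^ (1 / 2 : ℝ) * x ^ (δ / 2)) + 2 * (h.natDegree * x ^ (1 / 2 : ℝ) * Real.log x)
        ≤ 2 * (x ^ (1 / 2 : ℝ) * x ^ (δ / 2)) + 2 * (h.natDegree * x ^ (1 / 2 : ℝ) * x ^ (δ / 2)) := by gcongr
      _ = x ^ (1 / 2 : ℝ) * ((2 + 2 * (h.natDegree : ℝ)) * x ^ (δ / 2)) := by ring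
      _ ≤ x ^ (1 / 2 : ℝ) * (x ^ (δ / 2) * x ^ (δ / 2)) := by gcongr
  obtain ⟨i₂, hi₂⟩ := Pool.Agent.X35.GV.log_large hv1 hτ hθ hv α hα x₀ C hC
  refine ⟨max i₁ i₂, fun i hi n hn x hx1 hx2 σ hσ => ?_⟩
  have hlarge := hi₂ i (le_trans (le_max_right _ _) hi) n hn
  have hxx : x₀ ≤ x := hlarge.trans hx1
  obtain ⟨hx3, hS⟩ := hi₁ i (le_trans (le_max_left _ _) hi) n hn x hx1 hx2
  have hK : ∀ p ∈ Pool.Agent.X35.GV.op x, |Pool.Agent.X35.GV.tot p g q (tr h) n * Real.log p| ≤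
      h.natDegree * (x : ℝ) ^ (1 / 2 : ℝ) * Real.log x := by
    intro p hp
    obtain ⟨q1, q2, q3, q4, q5⟩ := Pool.Agent.X35.GV.op_log hp
    rw [Pool.Agent.X35.GV.mem_op] at hp
    have hp0 : (0 : ℝ) < p := by linarith
    have h1 := Pool.Agent.X35.GV.tot_abs p hp.2.1 g q (tr h) _ (fun t => tr_bound h hm ho p hp.2.1 hp.2.2 t) n
    rw [abs_mul, abs_of_pos q3]
    have h3 : (p : ℝ) ^ (1 / 2 : ℝ) ≤ (x : ℝ) ^ (1 / 2 : ℝ) := Real.rpow_le_rpow hp0.le q2 (by norm_num)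
    calc _ ≤ (h.natDegree * (p : ℝ) ^ (1 / 2 : ℝ)) * Real.log p := by gcongr
      _ ≤ _ := by gcongr
  have hfin := hW3 x (by omega) (fun p => Pool.Agent.X35.GV.tot p g q (tr h) n * Real.log p) _ _ (by
    have := Real.log_natCast_nonneg x
    positivity) hK hS σ hσ
  have hd : dirichletSum g q h n x σ = ∑ p ∈ Pool.Agent.X35.GV.op x,
      ((Pool.Agent.X35.GV.tot p g q (tr h) n * Real.log p : ℝ) : ℂ) * (p : ℂ) ^ (-(σ * Complex.I)) := by
    unfold dirichletSum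
    refine sum_congr rfl fun p hp => ?_
    have hp' := Pool.Agent.X35.GV.mem_op.1 hp
    rw [average_eq p hp'.2.1 hp'.2.2]
  rw [hd]
  exact hfin.trans (hx₀ x hxx)

end Pool.Agent.Results.MP_3d3918_nt.AllPencilsAllBases
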