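import Pool.Agent.X22.ND4

/-!
# The analytic form of Nagao's conjecture for the twists of arbitrary families of hyperelliptic curves over affine space by
almost all polynomials whose coefficients arise from arbitrary integers by changing a few digits: GRH-strength bounds at all heights

Nothing is used besides Mathlib in the statement.
-/

set_option autoImplicit false

namespace Pool.Agent.Results.MP_3d3918_nt.FewDigitPolynomialTwists

open Finset

/-- The value modulo `p` of the polynomial `D (T) = ∑ m l T ^ J`, `E l = J`, at the point `t = (t 1, ..., t k)`. -/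
def twist (p : ℕ) {k d : ℕ} (E : Fin d → (Fin k → ℕ)) (m : Fin d → ℕ) (t : Fin k → ZMod p) : ZMod p :=
  ∑ l, (m l : ZMod p) * ∏ j, t j ^ E l j

open Classical in
/-- The trace of Frobenius on `H¹` of the fibre `D (t) Y ^ 2 = h (X, t)` modulo `p`: `p` minus the number of its affine points (there is
one point at infinity), and `0` at the points `t` of the base with `D (t) = 0`. Here `h` is a polynomial in `X` whose coefficients are
polynomials in `t = (t 1, ..., t k)`. -/
noncomputable def trace (p : ℕ) {k d : ℕ} (E : Fin d → (Fin k → ℕ)) (m : Fin d → ℕ) (h : Polynomial (MvPolynomial (Fin k) ℤ))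
    (t : Fin k → ZMod p) : ℤ :=
  if twist p E m t = 0 then 0 else
    p - Nat.card {P : ZMod p × ZMod p //
      twist p E m t * P.2 ^ 2 = (h.map (MvPolynomial.eval₂Hom (Int.castRingHom (ZMod p)) t)).eval P.1}

/-- The fibre average `𝔄_p = p ^ (-k) ∑ a_p (t)` of the traces over the points `t` of the base `𝔸 ^ k` modulo `p` (`p` prime). -/
noncomputable def average (p : ℕ) {k d : ℕ} (E : Fin d → (Fin k → ℕ)) (m : Fin d → ℕ) (h : Polynomial (MvPolynomial (Fin k) ℤ)) : ℝ :=
  (∑ᶠ t : Fin k → ZMod p, (trace p E m h t : ℝ)) / (p : ℝ) ^ k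

/-- The partial sum over the odd primes `p ≤ x` of the Dirichlet series `∑ 𝔄_p (log p) p ^ (-s)` at `s = i τ`. -/
noncomputable def partialSum {k d : ℕ} (E : Fin d → (Fin k → ℕ)) (m : Fin d → ℕ) (h : Polynomial (MvPolynomial (Fin k) ℤ))
    (τ : ℝ) (x : ℕ) : ℂ :=
  ∑ p ∈ (range (x + 1)).filter (fun p => p.Prime ∧ p ≠ 2),
    ((average p E m h * Real.log p : ℝ) : ℂ) * Complex.exp (Complex.I * ((-(τ * Real.log p) : ℝ) : ℂ))

/-- The digit number `i` (counted from the right, beginning with `0`) of `n` in base `b`. -/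
def digit (b i n : ℕ) : ℕ := n / b ^ i % b

/-- The number which arises from the number `N` with at most `K` digits in base `b`, if for every `i ∈ S`
the digit number `i` is replaced by `f i`. -/
def change (b K N : ℕ) (f : ℕ → ℕ) (S : Finset ℕ) : ℕ :=
  ∑ i ∈ range K, (if i ∈ S then f i else digit b i N) * b ^ i

open Classical in
/-- The number of the choices of `r l` of `K l` positions for all `l < d` for which the vector of the numbers obtained by
changing the digits of the `N l` at the chosen positions (according to `f l`) does not have the property `E`. -/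
noncomputable def exceptions {d : ℕ} (b : ℕ) (K r N : Fin d → ℕ) (f : Fin d → ℕ → ℕ) (E : (Fin d → ℕ) → Prop) : ℕ :=
  ((Fintype.piFinset (fun l => powersetCard (r l) (range (K l)))).filter
    (fun S => ¬ E (fun l => change b (K l) (N l) (f l) (S l)))).card

open Pool.Agent.X22.ND (op mem_op mz_law absorb mean_zmod shift_zero second_moment)
open Pool.Agent.TH894.NE (mean mean_mul)

/-- the trace of the untwisted fibre -/
noncomputable def tr0 (p : ℕ) {k : ℕ} (h : Polynomial (MvPolynomial (Fin k) ℤ)) (t : Fin k → ZMod p) : ℤ :=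
  p - Nat.card {P : ZMod p × ZMod p //
    1 * P.2 ^ 2 = (h.map (MvPolynomial.eval₂Hom (Int.castRingHom (ZMod p)) t)).eval P.1}

lemma trace_eq (p : ℕ) (hp : p.Prime) (h2 : p ≠ 2) {k d : ℕ} (E : Fin d → (Fin k → ℕ)) (m : Fin d → ℕ) (h : Polynomial (MvPolynomial (Fin k) ℤ))
    (t : Fin k → ZMod p) : haveI : Fact p.Prime := ⟨hp⟩
    (trace p E m h t : ℝ) = (quadraticChar (ZMod p) (twist p E m t) : ℝ) * tr0 p h t := by
  classical
  have hf : Fact p.Prime := ⟨hp⟩
  have h3 : ringChar (ZMod p) ≠ 2 := by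
    rw [ZMod.ringChar_zmod_n]
    exact h2
  unfold trace tr0
  by_cases h0 : twist p E m t = 0
  · rw [if_pos h0, h0, quadraticChar_zero]
    simp
  · rw [if_neg h0]
    obtain ⟨g, hg⟩ : ∃ g : Polynomial (ZMod p), g = h.map (MvPolynomial.eval₂Hom (Int.castRingHom (ZMod p)) t) := ⟨_, rfl⟩
    rw [← hg, Pool.Agent.H126T.card_aff h3 g _ h0, Pool.Agent.H126T.card_aff h3 g _ one_ne_zero, ZMod.card, map_one]
    push_cast
    ring

lemma tr0_bound (p : ℕ) (hp : p.Prime) (h2 : p ≠ 2) {k : ℕ} (h : Polynomial (MvPolynomial (Fin k) ℤ)) (hm : h.Monic)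
    (ho : Odd h.natDegree) (t : Fin k → ZMod p) : |(tr0 p h t : ℝ)| ≤ h.natDegree * Real.sqrt p := by
  have hf : Fact p.Prime := ⟨hp⟩
  have h3 : ringChar (ZMod p) ≠ 2 := by
    rw [ZMod.ringChar_zmod_n]
    exact h2
  obtain ⟨g, hg⟩ : ∃ g : Polynomial (ZMod p), g = h.map (MvPolynomial.eval₂Hom (Int.castRingHom (ZMod p)) t) := ⟨_, rfl⟩
  have hgd : g.natDegree = h.natDegree := by
    rw [hg]
    exact hm.natDegree_map _
  have h4 := Pool.Agent.H126T.card_aff h3 g (1 : ZMod p) one_ne_zero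
  rw [ZMod.card, map_one, one_mul] at h4
  have h5 := Pool.Agent.H341R2.Sharp.weil_sharp h3 g (by rw [hgd]; exact ho.pos) (by
    intro c h' hgh
    by_cases hc : c = 0
    · rw [hc] at hgh
      simp at hgh
      rw [hgh, Polynomial.natDegree_zero] at hgd
      have := ho.pos
      omega
    · have h5 : g.natDegree = 2 * h'.natDegree := by
        rw [hgh, Polynomial.natDegree_C_mul hc, Polynomial.natDegree_pow]
      rw [hgd] at h5
      rw [h5] at ho
      exact (Nat.not_odd_iff_even.2 (even_two_mul _)) ho)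
  rw [hgd, ZMod.card] at h5
  unfold tr0
  rw [← hg, h4]
  push_cast
  rw [sub_add_cancel_left, abs_neg]
  refine h5.trans ?_
  have h6 : 0 ≤ Real.sqrt (p : ℝ) := Real.sqrt_nonneg _
  nlinarith

/-- the linear form -/
def lin (p : ℕ) {k d : ℕ} (E : Fin d → (Fin k → ℕ)) (t : Fin k → ZMod p) : (Fin d → ZMod p) →ₗ[ZMod p] ZMod p where
  toFun v := ∑ l, v l * ∏ j, t j ^ E l j
  map_add' v w := by
    rw [← sum_add_distrib]
    apply sum_congr rfl
    intro l _
    rw [Pi.add_apply]
    ring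
  map_smul' c v := by
    rw [RingHom.id_apply, smul_eq_mul, mul_sum]
    apply sum_congr rfl
    intro l _
    rw [Pi.smul_apply, smul_eq_mul]
    ring

section
variable {p k d : ℕ} [hf : Fact p.Prime] (E : Fin d → (Fin k → ℕ))

lemma lin_single (t : Fin k → ZMod p) (l : Fin d) (c : ZMod p) :
    lin p E t (Pi.single l c) = c * ∏ j, t j ^ E l j := by
  unfold lin
  simp only [LinearMap.coe_mk, AddHom.coe_mk]
  rw [sum_eq_single l]
  · rw [Pi.single_eq_same]
  · intro l' _ hne
    rw [Pi.single_eq_of_ne hne, zero_mul]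
  · intro h
    exact absurd (mem_univ l) h

lemma indep (h0 : ∃ l, E l = 0) (ht : ∀ j, ∃ l, E l = Pi.single j 1)
    (t t' : Fin k → ZMod p) (hz : t ≠ t') : ∃ w : Fin d → ZMod p, lin p E t w = 1 ∧ lin p E t' w = 0 := by
  obtain ⟨l0, hl0⟩ := h0
  have hc : ∀ t : Fin k → ZMod p, ∀ c, lin p E t (Pi.single l0 c) = c := by
    intro t c
    rw [lin_single, hl0]
    simp
  obtain ⟨l, hl⟩ : ∃ l, ∏ j, t j ^ E l j ≠ ∏ j, t' j ^ E l j := by
    obtain ⟨j, hj⟩ : ∃ j, t j ≠ t' j := by
      by_contra hcon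
      push Not at hcon
      exact hz (funext hcon)
    obtain ⟨l, hl⟩ := ht j
    refine ⟨l, ?_⟩
    have e : ∀ u : Fin k → ZMod p, ∏ i, u i ^ (Pi.single j 1 : Fin k → ℕ) i = u j := by
      intro u
      rw [prod_eq_single j]
      · rw [Pi.single_eq_same, pow_one]
      · intro i _ hi
        rw [Pi.single_eq_of_ne hi, pow_zero]
      · intro h
        exact absurd (mem_univ j) h
    rw [hl, e, e]
    exact hj
  obtain ⟨α, hα⟩ : ∃ α, α = ∏ j, t j ^ E l j := ⟨_, rfl⟩
  obtain ⟨α', hα'⟩ : ∃ α', α' = ∏ j, t' j ^ E l j := ⟨_, rfl⟩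
  rw [← hα, ← hα'] at hl
  have hne : α - α' ≠ 0 := sub_ne_zero.2 hl
  refine ⟨Pi.single l0 (-((α - α')⁻¹ * α')) + Pi.single l ((α - α')⁻¹), ?_, ?_⟩
  · rw [map_add, hc, lin_single, ← hα]
    field_simp
    ring
  · rw [map_add, hc, lin_single, ← hα']
    ring

end

/-- the sum of characters -/
noncomputable def cs (p : ℕ) (hp : p.Prime) {k d : ℕ} (E : Fin d → (Fin k → ℕ)) (h : Polynomial (MvPolynomial (Fin k) ℤ)) (v : Fin d → ZMod p) : ℝ :=
  haveI : Fact p.Prime := ⟨hp⟩
  ∑ t : Fin k → ZMod p, (tr0 p h t : ℝ) * (quadraticChar (ZMod p) (lin p E t v + 0) : ℝ)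

lemma average_eq (p : ℕ) (hp : p.Prime) (h2 : p ≠ 2) {k d : ℕ} (E : Fin d → (Fin k → ℕ)) (m : Fin d → ℕ) (h : Polynomial (MvPolynomial (Fin k) ℤ)) :
    average p E m h = cs p hp E h (fun i => (m i : ZMod p)) / (p : ℝ) ^ k := by
  have hf : Fact p.Prime := ⟨hp⟩
  unfold average
  rw [finsum_eq_sum_of_fintype]
  congr 1
  unfold cs
  apply sum_congr rfl
  intro t _
  rw [trace_eq p hp h2, mul_comm, add_zero]
  rfl

lemma average_bound (p : ℕ) (hp : p.Prime) (h2 : p ≠ 2) {k d : ℕ} (E : Fin d → (Fin k → ℕ)) (m : Fin d → ℕ)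
    (h : Polynomial (MvPolynomial (Fin k) ℤ)) (hm : h.Monic) (ho : Odd h.natDegree) : |average p E m h| ≤ h.natDegree * Real.sqrt p := by
  have hf : Fact p.Prime := ⟨hp⟩
  have hp0 : (0 : ℝ) < p := by exact_mod_cast hp.pos
  rw [average_eq p hp h2, abs_div, abs_of_pos (pow_pos hp0 k), div_le_iff₀ (pow_pos hp0 k)]
  unfold cs
  refine (abs_sum_le_sum_abs _ _).trans ?_
  have h1 : ∀ t ∈ (univ : Finset (Fin k → ZMod p)), |(tr0 p h t : ℝ) * (quadraticChar (ZMod p) (lin p E t (fun i => (m i : ZMod p)) + 0) : ℝ)| ≤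
      h.natDegree * Real.sqrt p := by
    intro t _
    rw [abs_mul]
    have h3 : |(quadraticChar (ZMod p) (lin p E t (fun i => (m i : ZMod p)) + 0) : ℝ)| ≤ 1 := by
      by_cases h0 : lin p E t (fun i => (m i : ZMod p)) + 0 = 0
      · rw [h0, quadraticChar_zero]
        norm_num
      · rcases quadraticChar_dichotomy h0 with h | h <;> rw [h] <;> norm_num
    calc |(tr0 p h t : ℝ)| * |(quadraticChar (ZMod p) (lin p E t (fun i => (m i : ZMod p)) + 0) : ℝ)| ≤ (h.natDegree * Real.sqrt p) * 1 :=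
          mul_le_mul (tr0_bound p hp h2 h hm ho t) h3 (abs_nonneg _) (by positivity)
      _ = h.natDegree * Real.sqrt p := mul_one _
  refine (sum_le_sum h1).trans ?_
  rw [sum_const, card_univ, Fintype.card_fun, Fintype.card_fin, ZMod.card, nsmul_eq_mul]
  push_cast
  linarith

lemma mean_average (p : ℕ) (hp : p.Prime) (h2 : p ≠ 2) {k d : ℕ} (E : Fin d → (Fin k → ℕ)) (h0 : ∃ l, E l = 0)
    (h : Polynomial (MvPolynomial (Fin k) ℤ)) (c : ℝ) : mean d p (fun m => c * average p E m h) = 0 := by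
  have hf : Fact p.Prime := ⟨hp⟩
  have h3 : (fun m : Fin d → ℕ => c * average p E m h) = fun m : Fin d → ℕ => (fun v : Fin d → ZMod p => c * (cs p hp E h v / (p : ℝ) ^ k)) (fun i => (m i : ZMod p)) := by
    funext m
    rw [average_eq p hp h2]
  have h33 : mean d p (fun m => c * average p E m h) = (∑ v : Fin d → ZMod p, c * (cs p hp E h v / (p : ℝ) ^ k)) / (p : ℝ) ^ d := by
    rw [h3]
    exact mean_zmod d p hp (fun v => c * (cs p hp E h v / (p : ℝ) ^ k))
  rw [h33, ← mul_sum, ← sum_div]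
  have h4 : ∑ v : Fin d → ZMod p, cs p hp E h v = 0 := by
    unfold cs
    rw [sum_comm]
    apply sum_eq_zero
    intro t _
    obtain ⟨l0, hl0⟩ := h0
    have h5 := shift_zero h2 (lin p E t) 0 (fun _ => (tr0 p h t : ℝ)) (Pi.single l0 1) (by
      rw [lin_single, hl0]
      simp) (fun _ _ => rfl)
    rw [← h5]
    apply sum_congr rfl
    intro v _
    ring
  rw [h4]
  simp

lemma mean_average_sq (p : ℕ) (hp : p.Prime) (h2 : p ≠ 2) {k d : ℕ} (hk : 1 ≤ k) (E : Fin d → (Fin k → ℕ)) (h0 : ∃ l, E l = 0)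
    (ht : ∀ j, ∃ l, E l = Pi.single j 1) (h : Polynomial (MvPolynomial (Fin k) ℤ)) (hm : h.Monic) (ho : Odd h.natDegree) (c : ℝ) :
    mean d p (fun m => (c * average p E m h) ^ 2) ≤ c ^ 2 * (h.natDegree : ℝ) ^ 2 := by
  have hf : Fact p.Prime := ⟨hp⟩
  have hp0 : (0 : ℝ) < p := by exact_mod_cast hp.pos
  have hp1 : (1 : ℝ) ≤ p := by exact_mod_cast hp.one_lt.le
  have h3 : (fun m : Fin d → ℕ => (c * average p E m h) ^ 2) = fun m : Fin d → ℕ => (fun v : Fin d → ZMod p => (c / (p : ℝ) ^ k) ^ 2 * (cs p hp E h v) ^ 2) (fun i => (m i : ZMod p)) := by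
    funext m
    rw [average_eq p hp h2]
    ring
  have h33 : mean d p (fun m => (c * average p E m h) ^ 2) = (∑ v : Fin d → ZMod p, (c / (p : ℝ) ^ k) ^ 2 * (cs p hp E h v) ^ 2) / (p : ℝ) ^ d := by
    rw [h3]
    exact mean_zmod d p hp (fun v => (c / (p : ℝ) ^ k) ^ 2 * (cs p hp E h v) ^ 2)
  rw [h33, ← mul_sum]
  have h4 := second_moment h2 (lin p E) (fun _ => 0) (indep E h0 ht) (fun t => (tr0 p h t : ℝ))
  have h6 : ∑ t : Fin k → ZMod p, (tr0 p h t : ℝ) ^ 2 ≤ (p : ℝ) ^ k * ((h.natDegree : ℝ) ^ 2 * p) := by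
    have h5 : ∀ t ∈ (univ : Finset (Fin k → ZMod p)), (tr0 p h t : ℝ) ^ 2 ≤ (h.natDegree : ℝ) ^ 2 * p := by
      intro t _
      rw [← sq_abs]
      calc |(tr0 p h t : ℝ)| ^ 2 ≤ (h.natDegree * Real.sqrt p) ^ 2 := pow_le_pow_left₀ (abs_nonneg _) (tr0_bound p hp h2 h hm ho t) 2
        _ = (h.natDegree : ℝ) ^ 2 * p := by rw [mul_pow, Real.sq_sqrt hp0.le]
    refine (sum_le_sum h5).trans ?_
    rw [sum_const, card_univ, Fintype.card_fun, Fintype.card_fin, ZMod.card, nsmul_eq_mul]
    push_cast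
    exact le_rfl
  have h5 : ∑ v : Fin d → ZMod p, (cs p hp E h v) ^ 2 ≤ ((p : ℝ) ^ k * ((h.natDegree : ℝ) ^ 2 * p)) * (p : ℝ) ^ d := by
    refine h4.trans ?_
    rw [Fintype.card_fun, Fintype.card_fin, ZMod.card]
    push_cast
    exact mul_le_mul_of_nonneg_right h6 (by positivity)
  rw [div_le_iff₀ (pow_pos hp0 d)]
  have h7 : (p : ℝ) ^ (k + 1) ≤ ((p : ℝ) ^ k) ^ 2 := by
    rw [← pow_mul]
    exact pow_le_pow_right₀ hp1 (by omega)
  calc (c / (p : ℝ) ^ k) ^ 2 * ∑ v : Fin d → ZMod p, (cs p hp E h v) ^ 2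
      ≤ (c / (p : ℝ) ^ k) ^ 2 * (((p : ℝ) ^ k * ((h.natDegree : ℝ) ^ 2 * p)) * (p : ℝ) ^ d) := mul_le_mul_of_nonneg_left h5 (sq_nonneg _)
    _ = (c / (p : ℝ) ^ k) ^ 2 * ((h.natDegree : ℝ) ^ 2 * (p : ℝ) ^ (k + 1) * (p : ℝ) ^ d) := by ring
    _ ≤ (c / (p : ℝ) ^ k) ^ 2 * ((h.natDegree : ℝ) ^ 2 * ((p : ℝ) ^ k) ^ 2 * (p : ℝ) ^ d) := by gcongr
    _ = c ^ 2 * (h.natDegree : ℝ) ^ 2 * (p : ℝ) ^ d := by
        field_simp

lemma average_mod (p : ℕ) {k d : ℕ} (E : Fin d → (Fin k → ℕ)) (m : Fin d → ℕ) (h : Polynomial (MvPolynomial (Fin k) ℤ)) :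
    average p E m h = average p E (fun i => m i % p) h := by
  have h1 : ∀ t, twist p E m t = twist p E (fun i => m i % p) t := by
    intro t
    unfold twist
    apply sum_congr rfl
    intro l _
    rw [ZMod.natCast_mod]
  unfold average trace
  simp only [← h1]

lemma card_op_le (x : ℕ) : ((op x).card : ℝ) ≤ x := by
  have : (op x).card ≤ (Icc 1 x).card := by
    apply card_le_card
    intro p hp
    rw [mem_op] at hp
    rw [mem_Icc]
    exact ⟨hp.2.1.one_lt.le, hp.1⟩
  rw [Nat.card_Icc, Nat.add_sub_cancel] at this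
  exact_mod_cast this

/-- Let `D (T) = ∑ m l T ^ J`, `E l = J`, be the polynomial in `T = (T 1, ..., T k)`, `k ≥ 1`, with `d` monomials, among which `1`, `T 1`, ..., `T k`
occur, with the coefficients `m l`. Let a base `b ≥ 2`, an integer `B`,
`δ > 0` and an integer `A ≥ 0` be given. There are `c > 0` and `y₀` such that for all integers
`r l`, `K l`, `y` with `2 r l ≤ K l` and `y ≥ y₀` the following holds.

Let `0 ≤ N l < b ^ K l` be arbitrary integers, prescribe for every position `j` a digit `g l j` different from the digit of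
`N l` in base `b`, and let `H x` be for every `x` a set of at most `x ^ A` polynomials `h (X, T)` with integer coefficients, monic in `X` of odd
degree at most `B`. If one chooses `r l` of the `K l` positions and replaces the digits of `N l` at these positions, then
for all but at most a proportion `1 / y ^ A` of the choices the polynomial `D (T)` with the
coefficients `m l` obtained has the following property: for all integers `x` with
`y ≤ x ≤ exp (c r l)` for all `l`, all `h ∈ H x` and all real `τ` with `|τ| ≤ x ^ A` the family of curves `D (T) Y ^ 2 = h (X, T)` over `𝔸 ^ k` satisfies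
`|∑ 𝔄_p (log p) p ^ (-i τ)| ≤ x ^ (1 / 2 + δ)`, the sum running over the odd primes `p ≤ x`. -/
theorem result (b k d B : ℕ) (E : Fin d → (Fin k → ℕ)) (hb : 2 ≤ b) (hk : 1 ≤ k)
    (h0 : ∃ l, E l = 0) (ht : ∀ j, ∃ l, E l = Pi.single j 1) (δ : ℝ) (hδ : 0 < δ) (A : ℕ) :
    ∃ c : ℝ, 0 < c ∧ ∃ y₀ : ℕ,
    ∀ (K r : Fin d → ℕ) (y : ℕ), (∀ l, 2 * r l ≤ K l) → y₀ ≤ y →
    ∀ N : Fin d → ℕ, (∀ l, N l < b ^ K l) → ∀ g : Fin d → ℕ → ℕ, (∀ l j, g l j < b ∧ g l j ≠ digit b j (N l)) →
    ∀ H : ℕ → Finset (Polynomial (MvPolynomial (Fin k) ℤ)), (∀ x, (H x).card ≤ x ^ A) →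
      (∀ x, ∀ h ∈ H x, h.Monic ∧ Odd h.natDegree ∧ h.natDegree ≤ B) →
      (exceptions b K r N g (fun m => ∀ x : ℕ, y ≤ x → (∀ l, (x : ℝ) ≤ Real.exp (c * r l)) → ∀ h ∈ H x, ∀ τ : ℝ, |τ| ≤ (x : ℝ) ^ A →
        ‖partialSum E m h τ x‖ ≤ (x : ℝ) ^ (1 / 2 + δ)) : ℝ) ≤
        1 / (y : ℝ) ^ A * ∏ l, ((K l).choose (r l) : ℝ) := by
  classical
  have hd : 1 ≤ d := by
    obtain ⟨l, _⟩ := h0
    exact Fin.pos l
  obtain ⟨c, hc, y₀, h⟩ := mz_law b d hb hd (δ / 2) (by positivity) A (A + (A + 6))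
  obtain ⟨x₁, hx₁⟩ := absorb (3 * B) (δ / 2) (by positivity) (by positivity)
  refine ⟨c, hc, y₀ + x₁ + 2, fun K r y hrK hy N hN g hg H hH1 hH2 => ?_⟩
  obtain ⟨cw, hcw⟩ : ∃ cw : ℕ → Bool × ℤ → ℕ → ℝ, cw = fun x q p =>
      if q.1 then Real.cos (-(((q.2 : ℝ) / (x : ℝ) ^ 2) * Real.log p)) else Real.sin (-(((q.2 : ℝ) / (x : ℝ) ^ 2) * Real.log p)) := ⟨_, rfl⟩
  have hcw1 : ∀ x q p, |cw x q p| ≤ 1 := by
    intro x q p
    rw [hcw]
    show |if q.1 then _ else _| ≤ 1
    split_ifs
    · exact Real.abs_cos_le_one _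
    · exact Real.abs_sin_le_one _
  have hB0 : (0 : ℝ) ≤ B := Nat.cast_nonneg B
  have h2 := h K r y hrK (by omega) N hN g hg (Polynomial (MvPolynomial (Fin k) ℤ) × (Bool × ℤ))
    (fun x => (H x) ×ˢ ((univ : Finset Bool) ×ˢ (Icc (-((x : ℤ) ^ (A + 2))) ((x : ℤ) ^ (A + 2))))) (by
      intro x hx
      rw [card_product, card_product, card_univ, Fintype.card_bool, Int.card_Icc, pow_add x A (A + 6)]
      apply Nat.mul_le_mul (hH1 x)
      have e2 : ((x : ℤ) ^ (A + 2) + 1 - -((x : ℤ) ^ (A + 2))).toNat = 2 * x ^ (A + 2) + 1 := by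
        have e3 : (x : ℤ) ^ (A + 2) + 1 - -((x : ℤ) ^ (A + 2)) = ((2 * x ^ (A + 2) + 1 : ℕ) : ℤ) := by
          push_cast
          ring
        rw [e3, Int.toNat_natCast]
      rw [e2]
      have e4 : 1 ≤ x ^ (A + 2) := Nat.one_le_pow _ _ (by omega)
      have e5 : x ^ (A + 6) = x ^ (A + 2) * x ^ 4 := by ring
      have e6 : 16 ≤ x ^ 4 := by
        have := Nat.pow_le_pow_left hx 4
        simpa using this
      rw [e5]
      nlinarith)
    (fun x q p m => cw x q.2 p * Real.log p * average p E m q.1) (by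
      intro x q p m _
      show cw x q.2 p * Real.log p * average p E m q.1 = cw x q.2 p * Real.log p * average p E (fun i => m i % p) q.1
      rw [← average_mod]) (fun x _ => B * Real.sqrt x * (Real.log x + 1)) (by
      intro x hx w _
      have : 0 ≤ Real.log x := Real.log_natCast_nonneg x
      positivity) ?_ ?_ ?_
    (fun m => ∀ x : ℕ, y ≤ x → (∀ l, (x : ℝ) ≤ Real.exp (c * r l)) → ∀ h ∈ H x, ∀ τ : ℝ, |τ| ≤ (x : ℝ) ^ A →
        ‖partialSum E m h τ x‖ ≤ (x : ℝ) ^ (1 / 2 + δ)) ?_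
  · unfold exceptions
    exact h2
  · -- bound
    intro x hx q hq p hp m
    rw [mem_product] at hq
    obtain ⟨hq1, hq2, hq3⟩ := hH2 x q.1 hq.1
    rw [mem_op] at hp
    have hp1 : (1 : ℝ) ≤ p := by exact_mod_cast hp.2.1.one_lt.le
    have hpx : (p : ℝ) ≤ x := by exact_mod_cast hp.1
    have hlp : 0 ≤ Real.log p := Real.log_nonneg hp1
    have hlx : Real.log p ≤ Real.log x := Real.log_le_log (by linarith) hpx
    have hb1 := average_bound p hp.2.1 hp.2.2 E m q.1 hq1 hq2
    have hs : Real.sqrt p ≤ Real.sqrt x := Real.sqrt_le_sqrt hpx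
    have hq3' : (q.1.natDegree : ℝ) ≤ B := by exact_mod_cast hq3
    rw [abs_mul, abs_mul, abs_of_nonneg hlp]
    calc |cw x q.2 p| * Real.log p * |average p E m q.1| ≤ 1 * (Real.log x + 1) * (q.1.natDegree * Real.sqrt p) := by
          gcongr
          · exact hcw1 x q.2 p
          · linarith
      _ ≤ 1 * (Real.log x + 1) * (B * Real.sqrt x) := by
          have : 0 ≤ Real.log x := hlp.trans hlx
          gcongr
      _ = B * Real.sqrt x * (Real.log x + 1) := by ring
  · -- mean zero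
    intro x hx q _ p hp
    rw [mem_op] at hp
    exact mean_average p hp.2.1 hp.2.2 E h0 q.1 (cw x q.2 p * Real.log p)
  · -- variance
    intro x hx q hq
    rw [mem_product] at hq
    obtain ⟨hq1, hq2, hq3⟩ := hH2 x q.1 hq.1
    have hq3' : (q.1.natDegree : ℝ) ≤ B := by exact_mod_cast hq3
    have hlx0 : 0 ≤ Real.log x := Real.log_natCast_nonneg x
    have hone : ∀ p ∈ op x, mean d p (fun m => (cw x q.2 p * Real.log p * average p E m q.1) ^ 2) ≤ (Real.log x + 1) ^ 2 * (B : ℝ) ^ 2 := by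
      intro p hp
      rw [mem_op] at hp
      have hp1 : (1 : ℝ) ≤ p := by exact_mod_cast hp.2.1.one_lt.le
      have hpx : (p : ℝ) ≤ x := by exact_mod_cast hp.1
      have hlp : 0 ≤ Real.log p := Real.log_nonneg hp1
      have hlx : Real.log p ≤ Real.log x := Real.log_le_log (by linarith) hpx
      refine (mean_average_sq p hp.2.1 hp.2.2 hk E h0 ht q.1 hq1 hq2 (cw x q.2 p * Real.log p)).trans ?_
      have h7 : (cw x q.2 p * Real.log p) ^ 2 ≤ (Real.log x + 1) ^ 2 := by
        rw [← sq_abs, abs_mul, abs_of_nonneg hlp]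
        apply pow_le_pow_left₀ (by positivity)
        calc |cw x q.2 p| * Real.log p ≤ 1 * (Real.log x + 1) := by
              gcongr
              · exact hcw1 x q.2 p
              · linarith
          _ = Real.log x + 1 := one_mul _
      have h8 : (q.1.natDegree : ℝ) ^ 2 ≤ (B : ℝ) ^ 2 := pow_le_pow_left₀ (Nat.cast_nonneg _) hq3' 2
      exact mul_le_mul h7 h8 (sq_nonneg _) (sq_nonneg _)
    refine (sum_le_sum hone).trans ?_
    rw [sum_const, nsmul_eq_mul]
    have hx0 : (0 : ℝ) ≤ x := Nat.cast_nonneg x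
    calc ((op x).card : ℝ) * ((Real.log x + 1) ^ 2 * (B : ℝ) ^ 2) ≤ x * ((Real.log x + 1) ^ 2 * (B : ℝ) ^ 2) :=
          mul_le_mul_of_nonneg_right (card_op_le x) (by positivity)
      _ = (B * Real.sqrt x * (Real.log x + 1)) ^ 2 := by
          rw [mul_pow, mul_pow, Real.sq_sqrt hx0]
          ring
  · -- the conclusion
    intro m hm x hyx hxr h' hh' τ hτ
    obtain ⟨hq1, hq2, hq3⟩ := hH2 x h' hh'
    have hq3' : (h'.natDegree : ℝ) ≤ B := by exact_mod_cast hq3
    have hx2 : 2 ≤ x := by omega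
    have hx0 : (0 : ℝ) < x := by exact_mod_cast (by omega : 0 < x)
    have hx1 : (1 : ℝ) ≤ x := by exact_mod_cast (by omega : 1 ≤ x)
    have hlx0 : 0 ≤ Real.log x := Real.log_natCast_nonneg x
    obtain ⟨j, hj⟩ : ∃ j : ℤ, j = ⌊τ * (x : ℝ) ^ 2⌋ := ⟨_, rfl⟩
    have hj1 : (j : ℝ) ≤ τ * (x : ℝ) ^ 2 := by rw [hj]; exact Int.floor_le _
    have hj2 : τ * (x : ℝ) ^ 2 < j + 1 := by rw [hj]; exact Int.lt_floor_add_one _
    obtain ⟨σ, hσ⟩ : ∃ σ : ℝ, σ = (j : ℝ) / (x : ℝ) ^ 2 := ⟨_, rfl⟩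
    have hστ : |τ - σ| ≤ 1 / (x : ℝ) ^ 2 := by
      have hx2p : (0 : ℝ) < (x : ℝ) ^ 2 := by positivity
      have e1 : τ - σ = (τ * (x : ℝ) ^ 2 - j) / (x : ℝ) ^ 2 := by
        rw [hσ]
        field_simp
      rw [e1, abs_div, abs_of_pos hx2p, abs_of_nonneg (by linarith)]
      apply div_le_div_of_nonneg_right _ hx2p.le
      linarith
    have hjmem : j ∈ Icc (-((x : ℤ) ^ (A + 2))) ((x : ℤ) ^ (A + 2)) := by
      rw [abs_le] at hτ
      rw [mem_Icc]
      constructor
      · have h3 : -((x : ℝ) ^ (A + 2)) < (j : ℝ) + 1 := by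
          calc -((x : ℝ) ^ (A + 2)) = -((x : ℝ) ^ A) * (x : ℝ) ^ 2 := by ring
            _ ≤ τ * (x : ℝ) ^ 2 := mul_le_mul_of_nonneg_right hτ.1 (by positivity)
            _ < _ := hj2
        have h4 : -((x : ℤ) ^ (A + 2)) < j + 1 := by exact_mod_cast h3
        omega
      · have h3 : (j : ℝ) ≤ (x : ℝ) ^ (A + 2) := by
          calc (j : ℝ) ≤ τ * (x : ℝ) ^ 2 := hj1
            _ ≤ (x : ℝ) ^ A * (x : ℝ) ^ 2 := mul_le_mul_of_nonneg_right hτ.2 (by positivity)
            _ = _ := by ring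
        exact_mod_cast h3
    have hre := hm x hyx hxr (h', true, j) (by
      rw [mem_product, mem_product]
      exact ⟨hh', mem_univ _, hjmem⟩)
    have him := hm x hyx hxr (h', false, j) (by
      rw [mem_product, mem_product]
      exact ⟨hh', mem_univ _, hjmem⟩)
    have e1 : (partialSum E m h' σ x).re = ∑ p ∈ op x, cw x (true, j) p * Real.log p * average p E m h' := by
      unfold partialSum
      rw [Complex.re_sum]
      apply sum_congr rfl
      intro p _
      rw [Complex.re_ofReal_mul, mul_comm Complex.I, Complex.exp_ofReal_mul_I_re, hcw, hσ]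
      simp only [if_true]
      ring
    have e2 : (partialSum E m h' σ x).im = ∑ p ∈ op x, cw x (false, j) p * Real.log p * average p E m h' := by
      unfold partialSum
      rw [Complex.im_sum]
      apply sum_congr rfl
      intro p _
      rw [Complex.im_ofReal_mul, mul_comm Complex.I, Complex.exp_ofReal_mul_I_im, hcw, hσ]
      simp only [Bool.false_eq_true, if_false]
      ring
    have e3 : ‖partialSum E m h' σ x‖ ≤ 2 * (B * Real.sqrt x * (Real.log x + 1) * (x : ℝ) ^ (δ / 2)) := by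
      refine (Complex.norm_le_abs_re_add_abs_im _).trans ?_
      rw [e1, e2]
      have := add_le_add hre him
      simp only at this
      linarith
    have e4 : ‖partialSum E m h' τ x - partialSum E m h' σ x‖ ≤ B * Real.sqrt x * (Real.log x + 1) := by
      unfold partialSum
      rw [← sum_sub_distrib]
      refine (norm_sum_le _ _).trans ?_
      have hone : ∀ p ∈ op x, ‖((average p E m h' * Real.log p : ℝ) : ℂ) * Complex.exp (Complex.I * ((-(τ * Real.log p) : ℝ) : ℂ)) -
          ((average p E m h' * Real.log p : ℝ) : ℂ) * Complex.exp (Complex.I * ((-(σ * Real.log p) : ℝ) : ℂ))‖ ≤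
          B * Real.sqrt x * (Real.log x + 1) * (1 / x) := by
        intro p hp
        rw [mem_op] at hp
        have hp1 : (1 : ℝ) ≤ p := by exact_mod_cast hp.2.1.one_lt.le
        have hpx : (p : ℝ) ≤ x := by exact_mod_cast hp.1
        have hlp : 0 ≤ Real.log p := Real.log_nonneg hp1
        have hlx : Real.log p ≤ Real.log x := Real.log_le_log (by linarith) hpx
        have hlxx : Real.log x ≤ x := (Real.log_le_sub_one_of_pos hx0).trans (by linarith)
        have hb1 := average_bound p hp.2.1 hp.2.2 E m h' hq1 hq2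
        have hs : Real.sqrt p ≤ Real.sqrt x := Real.sqrt_le_sqrt hpx
        rw [← mul_sub, norm_mul, Complex.norm_real, Real.norm_eq_abs, abs_mul, abs_of_nonneg hlp]
        have e5 : ‖Complex.exp (Complex.I * ((-(τ * Real.log p) : ℝ) : ℂ)) - Complex.exp (Complex.I * ((-(σ * Real.log p) : ℝ) : ℂ))‖ ≤ 1 / x := by
          have e6 : Complex.exp (Complex.I * ((-(τ * Real.log p) : ℝ) : ℂ)) =
              Complex.exp (Complex.I * ((-(σ * Real.log p) : ℝ) : ℂ)) * Complex.exp (Complex.I * ((-((τ - σ) * Real.log p) : ℝ) : ℂ)) := by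
            rw [← Complex.exp_add]
            congr 1
            push_cast
            ring
          rw [e6, ← mul_sub_one, norm_mul]
          have e7 : ‖Complex.exp (Complex.I * ((-(σ * Real.log p) : ℝ) : ℂ))‖ = 1 := by
            rw [mul_comm]
            exact Complex.norm_exp_ofReal_mul_I _
          rw [e7, one_mul]
          refine (Real.norm_exp_I_mul_ofReal_sub_one_le).trans ?_
          rw [Real.norm_eq_abs, abs_neg, abs_mul, abs_of_nonneg hlp]
          calc |τ - σ| * Real.log p ≤ 1 / (x : ℝ) ^ 2 * x := mul_le_mul hστ (hlx.trans hlxx) hlp (by positivity)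
            _ = 1 / x := by field_simp
        calc |average p E m h'| * Real.log p * ‖Complex.exp (Complex.I * ((-(τ * Real.log p) : ℝ) : ℂ)) - Complex.exp (Complex.I * ((-(σ * Real.log p) : ℝ) : ℂ))‖
            ≤ (h'.natDegree * Real.sqrt p) * (Real.log x + 1) * (1 / x) := by
              gcongr
              linarith
          _ ≤ (B * Real.sqrt x) * (Real.log x + 1) * (1 / x) := by gcongr
          _ = _ := by ring
      refine (sum_le_sum hone).trans ?_
      rw [sum_const, nsmul_eq_mul]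
      calc ((op x).card : ℝ) * (B * Real.sqrt x * (Real.log x + 1) * (1 / x)) ≤ x * (B * Real.sqrt x * (Real.log x + 1) * (1 / x)) :=
            mul_le_mul_of_nonneg_right (card_op_le x) (by positivity)
        _ = B * Real.sqrt x * (Real.log x + 1) := by field_simp
    have e8 : ‖partialSum E m h' τ x‖ ≤ 3 * B * (Real.log x + 1) * (Real.sqrt x * (x : ℝ) ^ (δ / 2)) := by
      have e9 : partialSum E m h' τ x = (partialSum E m h' τ x - partialSum E m h' σ x) + partialSum E m h' σ x := by ring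
      rw [e9]
      refine (norm_add_le _ _).trans ((add_le_add e4 e3).trans ?_)
      have e10 : (1 : ℝ) ≤ (x : ℝ) ^ (δ / 2) := Real.one_le_rpow hx1 (by positivity)
      have e11 : 0 ≤ B * Real.sqrt x * (Real.log x + 1) := by positivity
      nlinarith
    refine e8.trans ?_
    have h3 := hx₁ x (by omega)
    have h4 : (x : ℝ) ^ (1 / 2 + δ) = (x : ℝ) ^ (δ / 2) * (Real.sqrt x * (x : ℝ) ^ (δ / 2)) := by
      rw [Real.sqrt_eq_rpow, ← Real.rpow_add hx0, ← Real.rpow_add hx0]
      congr 1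
      ring
    rw [h4]
    exact mul_le_mul_of_nonneg_right h3 (by positivity)

end Pool.Agent.Results.MP_3d3918_nt.FewDigitPolynomialTwists
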